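import Mathlib
import Pool.Agent.H8.AlmostAll

set_option autoImplicit false

namespace Pool.Agent.H8.Old.AlmostAllPairs

open Classical in
theorem result (N : ℕ) (hN : 1 ≤ N) :
    (((Finset.Icc (-(N : ℤ)) N ×ˢ Finset.Icc (-(N : ℤ)) N).filter
      (fun p : ℤ × ℤ =>
        ¬ ((∃ x y z : ℤ, x ^ 2 + y ^ 2 + z ^ 2 - p.1 * x * y * z = p.2) ↔
            ∃ u v : ℤ, p.2 = u ^ 2 + v ^ 2))).card : ℝ) ≤
      126 * N * (1 + Real.log N) ^ 3 :=
  Pool.Agent.H8.AlmostAll.main N hN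

end Pool.Agent.H8.Old.AlmostAllPairs
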